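import Mathlib

set_option autoImplicit false

/-!
# Vectors with pairwise nonpositive inner products
-/

open scoped InnerProductSpace

namespace Pool.Agent.E8helper37.KA

/-- Nonzero vectors with pairwise nonpositive inner products: at most twice the dimension. -/
theorem obtuse_aux (d : ℕ) : ∀ (V : Type) [NormedAddCommGroup V] [InnerProductSpace ℝ V]
    [FiniteDimensional ℝ V], Module.finrank ℝ V = d → ∀ X : Finset V, (∀ x ∈ X, x ≠ 0) →
    (∀ x ∈ X, ∀ y ∈ X, x ≠ y → ⟪x, y⟫_ℝ ≤ 0) → X.card ≤ 2 * d := by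
  classical
  induction d with
  | zero =>
    intro V _ _ _ hV X h0 _
    rw [mul_zero, Nat.le_zero, Finset.card_eq_zero]
    rw [Finset.eq_empty_iff_forall_notMem]
    intro x hx
    have h1 : Subsingleton V := Module.finrank_zero_iff.1 hV
    exact h0 x hx (Subsingleton.elim _ _)
  | succ d ih =>
    intro V _ _ _ hV X h0 hX
    rcases X.eq_empty_or_nonempty with rfl | ⟨a, ha⟩
    · simp
    have ha0 := h0 a ha
    have hna : 0 < ‖a‖ ^ 2 := by
      have := norm_pos_iff.2 ha0
      positivity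
    let K : Submodule ℝ V := (ℝ ∙ a)ᗮ
    have hK : Module.finrank ℝ K = d := by
      have h1 := Submodule.finrank_add_finrank_orthogonal (ℝ ∙ a)
      rw [finrank_span_singleton ha0, hV] at h1
      change 1 + Module.finrank ℝ K = d + 1 at h1
      omega
    let f : V → V := fun x => x - (⟪a, x⟫_ℝ / ‖a‖ ^ 2) • a
    have hfK : ∀ x, f x ∈ K := by
      intro x
      rw [Submodule.mem_orthogonal_singleton_iff_inner_right]
      change ⟪a, x - (⟪a, x⟫_ℝ / ‖a‖ ^ 2) • a⟫_ℝ = 0
      rw [inner_sub_right, inner_smul_right, real_inner_self_eq_norm_sq]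
      field_simp
      ring
    have hin : ∀ x y, ⟪f x, f y⟫_ℝ = ⟪x, y⟫_ℝ - ⟪a, x⟫_ℝ * ⟪a, y⟫_ℝ / ‖a‖ ^ 2 := by
      intro x y
      change ⟪x - (⟪a, x⟫_ℝ / ‖a‖ ^ 2) • a, y - (⟪a, y⟫_ℝ / ‖a‖ ^ 2) • a⟫_ℝ = _
      rw [inner_sub_left, inner_sub_right, inner_sub_right, inner_smul_left, inner_smul_right,
        inner_smul_left, inner_smul_right, real_inner_self_eq_norm_sq, real_inner_comm a x]
      simp only [conj_trivial]
      field_simp
      ring
    -- the points other than `a`
    set Y := X.erase a with hY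
    have hYa : ∀ x ∈ Y, ⟪a, x⟫_ℝ ≤ 0 := by
      intro x hx
      rw [hY, Finset.mem_erase] at hx
      exact hX a ha x hx.2 (Ne.symm hx.1)
    have hYin : ∀ x ∈ Y, ∀ y ∈ Y, x ≠ y → ⟪f x, f y⟫_ℝ ≤ 0 := by
      intro x hx y hy hxy
      rw [hin]
      have h1 := hYa x hx
      have h2 := hYa y hy
      rw [hY, Finset.mem_erase] at hx hy
      have h3 := hX x hx.2 y hy.2 hxy
      have h4 : 0 ≤ ⟪a, x⟫_ℝ * ⟪a, y⟫_ℝ / ‖a‖ ^ 2 :=
        div_nonneg (mul_nonneg_of_nonpos_of_nonpos h1 h2) hna.le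
      linarith
    -- at most one of them is a multiple of `a`
    have hzero : (Y.filter fun x => f x = 0).card ≤ 1 := by
      rw [Finset.card_le_one]
      intro x hx y hy
      rw [Finset.mem_filter] at hx hy
      by_contra hxy
      have h1 : x = (⟪a, x⟫_ℝ / ‖a‖ ^ 2) • a := sub_eq_zero.1 hx.2
      have h2 : y = (⟪a, y⟫_ℝ / ‖a‖ ^ 2) • a := sub_eq_zero.1 hy.2
      have h3 := hYa x hx.1
      have h4 := hYa y hy.1
      have hx' := hx.1
      have hy' := hy.1
      rw [hY, Finset.mem_erase] at hx' hy'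
      have h5 := hX x hx'.2 y hy'.2 hxy
      have h6 : ⟪x, y⟫_ℝ = ⟪a, x⟫_ℝ * ⟪a, y⟫_ℝ / ‖a‖ ^ 2 := by
        have h7 := hin x y
        rw [hx.2, inner_zero_left] at h7
        linarith
      have h8 : ⟪a, x⟫_ℝ ≠ 0 := by
        intro h
        rw [h, zero_div, zero_smul] at h1
        exact h0 x hx'.2 h1
      have h9 : ⟪a, y⟫_ℝ ≠ 0 := by
        intro h
        rw [h, zero_div, zero_smul] at h2
        exact h0 y hy'.2 h2
      have h10 : 0 < ⟪a, x⟫_ℝ * ⟪a, y⟫_ℝ / ‖a‖ ^ 2 :=
        div_pos (mul_pos_of_neg_of_neg (lt_of_le_of_ne h3 h8) (lt_of_le_of_ne h4 h9)) hna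
      rw [h6] at h5
      linarith
    set Z := Y.filter (fun x => ¬ f x = 0) with hZ
    let g : V → K := fun x => ⟨f x, hfK x⟩
    have hginj : Set.InjOn g Z := by
      intro x hx y hy hxy
      by_contra hne
      rw [Finset.mem_coe, hZ, Finset.mem_filter] at hx hy
      have h1 : f x = f y := congrArg Subtype.val hxy
      have h2 := hYin x hx.1 y hy.1 hne
      rw [← h1, real_inner_self_eq_norm_sq] at h2
      have h3 : ‖f x‖ = 0 := by
        have := norm_nonneg (f x)
        nlinarith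
      exact hx.2 (norm_eq_zero.1 h3)
    have hZc : Z.card ≤ 2 * d := by
      rw [← Finset.card_image_of_injOn hginj]
      apply ih K hK
      · intro u hu
        rw [Finset.mem_image] at hu
        obtain ⟨x, hx, rfl⟩ := hu
        rw [hZ, Finset.mem_filter] at hx
        intro h
        exact hx.2 (congrArg Subtype.val h)
      · intro u hu v hv huv
        rw [Finset.mem_image] at hu hv
        obtain ⟨x, hx, rfl⟩ := hu
        obtain ⟨y, hy, rfl⟩ := hv
        rw [hZ, Finset.mem_filter] at hx hy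
        have hne : x ≠ y := fun h => huv (by rw [h])
        exact hYin x hx.1 y hy.1 hne
    have h1 := Finset.card_filter_add_card_filter_not (s := Y) (fun x => f x = 0)
    have h2 := Finset.card_erase_of_mem ha
    have h3 : 0 < X.card := Finset.card_pos.2 ⟨a, ha⟩
    rw [← hY] at h2
    rw [← hZ] at h1
    omega

end Pool.Agent.E8helper37.KA
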