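import Pool.Agent.E8helper37.KA.Core
import Pool.Agent.E8helper37.KA.Obtuse
import Pool.Agent.H818R2.Kiss4
import Pool.Agent.H161R2.KissWyner
import Pool.Agent.Results.MP_b5f63d_co.AllAngles

set_option autoImplicit false

/-!
# Additive structure of kissing configurations: exponents
-/

open scoped InnerProductSpace Pointwise Combinatorics.Additive
open Filter

namespace Pool.Agent.E8helper37.KA

open Pool.Agent.H818R2 (sphMax kissing codeRate codeRate_le)
open Pool.Agent.Results.MP_b5f63d_co (AllAngles.g AllAngles.rate AllAngles.A AllAngles.result)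

/-- codes without acute angles -/
theorem A_zero_le {n : ℕ} {s : ℝ} (h2 : s ≤ 0) : A n s ≤ 2 * n := by
  have hne : {k | ∃ X : Finset (EuclideanSpace ℝ (Fin n)), IsCode s X ∧ X.card = k}.Nonempty :=
    ⟨0, ∅, ⟨by simp, by simp⟩, by simp⟩
  apply csSup_le hne
  rintro k ⟨X, hX, rfl⟩
  apply obtuse_aux n (EuclideanSpace ℝ (Fin n)) (by simp) X
  · intro x hx h
    have := hX.1 x hx
    rw [h, norm_zero] at this
    exact zero_ne_one this
  · intro x hx y hy hxy
    exact (hX.2 x hx y hy hxy).trans h2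

theorem g_third : AllAngles.g (1 / Real.sin (Real.arccos (1 / 3))) < 1974 / 10000 * Real.log 2 := by
  rw [Real.sin_arccos]
  set r : ℝ := 1 / √(1 - (1 / 3) ^ 2) with hr
  have h8 : (1 - (1 / 3) ^ 2 : ℝ) = 8 / 9 := by norm_num
  have hr0 : 0 < r := by
    rw [hr, h8]
    positivity
  have hr2 : r ^ 2 = 9 / 8 := by
    rw [hr, h8, div_pow, Real.sq_sqrt (by norm_num)]
    norm_num
  have hlo : 1.0606601 < r := by nlinarith
  have hhi : r < 1.0606602 := by nlinarith
  have ha : 0 < (r + 1) / 2 := by linarith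
  have hb : 0 < (r - 1) / 2 := by linarith
  have hab : (r - 1) / 2 = 1 / (2 ^ 5 * ((r + 1) / 2)) := by
    field_simp
    nlinarith
  have hlogb : Real.log ((r - 1) / 2) = -(5 * Real.log 2 + Real.log ((r + 1) / 2)) := by
    rw [hab, one_div, Real.log_inv, Real.log_mul (by norm_num) ha.ne', Real.log_pow]
    norm_num
  have hloga : Real.log ((r + 1) / 2) ≤ 0.029881 := by
    rw [Real.log_le_iff_le_exp ha]
    have h1 := Real.sum_le_exp_of_nonneg (x := 0.029881) (by norm_num) 4
    rw [Finset.sum_range_succ, Finset.sum_range_succ, Finset.sum_range_succ, Finset.sum_range_succ,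
      Finset.sum_range_zero] at h1
    norm_num [Nat.factorial] at h1
    have h1' : (6181991302455804841 / 6000000000000000000 : ℝ) ≤ Real.exp 0.029881 := by
      convert h1 using 2
      norm_num
    refine le_trans ?_ h1'
    linarith
  unfold AllAngles.g
  rw [hlogb]
  have h2 := Real.log_two_gt_d9
  have h3 : (r + 1) / 2 * Real.log ((r + 1) / 2) -
      (r - 1) / 2 * -(5 * Real.log 2 + Real.log ((r + 1) / 2)) =
      r * Real.log ((r + 1) / 2) + 5 * ((r - 1) / 2) * Real.log 2 := by ring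
  rw [h3]
  have h4 : r * Real.log ((r + 1) / 2) ≤ 1.0606602 * 0.029881 := by
    calc r * Real.log ((r + 1) / 2) ≤ r * 0.029881 := mul_le_mul_of_nonneg_left hloga hr0.le
      _ ≤ _ := mul_le_mul_of_nonneg_right hhi.le (by norm_num)
  have h5 : 5 * ((r - 1) / 2) * Real.log 2 ≤ 0.1516505 * Real.log 2 := by
    apply mul_le_mul_of_nonneg_right _ (Real.log_nonneg (by norm_num))
    linarith
  nlinarith

/-- The codes of angle `arccos (1 / 3)` have exponent at most `0.1974`. -/
theorem A_third : ∀ᶠ n : ℕ in atTop, (A n (1 / 3) : ℝ) ≤ (2 : ℝ) ^ ((1974 / 10000 : ℝ) * n) := by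
  set θ := Real.arccos (1 / 3) with hθ
  have hcos : Real.cos θ = 1 / 3 := Real.cos_arccos (by norm_num) (by norm_num)
  have h0 : 0 < θ := Real.arccos_pos.2 (by norm_num)
  have h1 : θ < Real.pi / 2 := Real.arccos_lt_pi_div_two.2 (by norm_num)
  have hAeq : ∀ n, AllAngles.A n θ = A n (1 / 3) := by
    intro n
    unfold AllAngles.A Pool.Agent.Results.MP_b5f63d_co.AllAngles.IsCode A IsCode
    rw [hcos]
  have h2 : AllAngles.rate θ < 1974 / 10000 * Real.log 2 :=
    ((AllAngles.result).1 θ h0 h1).2.2.trans g_third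
  have hs : 0 < Real.sin (θ / 2) := sin_pos (by norm_num)
  have h3 := eventually_lt_of_limsup_lt h2 (by
    refine ⟨Real.logb 2 ((1 + 2 * Real.sin (θ / 2)) / Real.sin (θ / 2)) * Real.log 2, ?_⟩
    rw [eventually_map]
    refine Eventually.of_forall fun n => ?_
    have h4 := codeRate_le hs n
    unfold codeRate at h4
    have h5 : Real.log (AllAngles.A n θ) / n =
        Real.logb 2 (sphMax n θ) / n * Real.log 2 := by
      rw [hAeq, A_eq (by norm_num) (by norm_num), Real.logb]
      have : Real.log 2 ≠ 0 := (Real.log_pos (by norm_num)).ne'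
      rw [← hθ]
      field_simp
    rw [h5]
    exact mul_le_mul_of_nonneg_right h4 (Real.log_nonneg (by norm_num)))
  filter_upwards [h3, eventually_gt_atTop 0] with n hn hn0
  have hn' : (0 : ℝ) < n := by exact_mod_cast hn0
  rw [hAeq, div_lt_iff₀ hn'] at hn
  rcases Nat.eq_zero_or_pos (A n (1 / 3)) with h | h
  · rw [h, Nat.cast_zero]
    positivity
  · have h' : (0 : ℝ) < A n (1 / 3) := by exact_mod_cast h
    rw [Real.log_lt_iff_lt_exp h'] at hn
    refine hn.le.trans (le_of_eq ?_)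
    rw [Real.rpow_def_of_pos (by norm_num)]
    congr 1
    ring

theorem kissing_eq (n : ℕ) : A n (1 / 2) = kissing n := by
  rw [A_eq (by norm_num) (by norm_num)]
  unfold kissing
  congr 1
  rw [← Real.cos_pi_div_three, Real.arccos_cos (by positivity) (by linarith [Real.pi_pos])]

open Classical in
/-- Additive structure of kissing configurations in large dimensions. -/
theorem asym : ∀ᶠ n : ℕ in atTop, ∀ X : Finset (EuclideanSpace ℝ (Fin n)), IsCode (1 / 2) X →
    (∀ z, z ≠ 0 → ((X.filter fun x => x - z ∈ X).card : ℝ) ≤ 2 ^ ((1974 / 10000 : ℝ) * n)) ∧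
    (∀ Y : Finset (EuclideanSpace ℝ (Fin n)), (X.card : ℝ) ^ 2 * Y.card ≤
      (X + Y).card * (X.card + 2 ^ ((1974 / 10000 : ℝ) * n) * Y.card)) ∧
    (E[X, X] : ℝ) ≤ 2 ^ ((1975 / 10000 : ℝ) * n) * (X.card : ℝ) ^ 2 ∧
    ((2 : ℝ) ^ (-(n : ℝ) / 200) * A n (1 / 2) ≤ X.card →
      (∀ z, z ≠ 0 → ((X.filter fun x => x - z ∈ X).card : ℝ) ≤ 2 ^ (-(n : ℝ) / 200) * X.card) ∧
      (E[X, X] : ℝ) ≤ 2 ^ (-(n : ℝ) / 200) * (X.card : ℝ) ^ 3 ∧
      (∀ Y : Finset (EuclideanSpace ℝ (Fin n)), X.card ≤ Y.card →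
        (2 : ℝ) ^ ((n : ℝ) / 200) * X.card ≤ (X + Y).card) ∧
      ∀ Y : Finset (EuclideanSpace ℝ (Fin n)), (Y.card : ℝ) ≤ 2 ^ ((n : ℝ) / 200) →
        (X.card : ℝ) * Y.card ≤ 2 * (X + Y).card) := by
  have hbig : ∀ᶠ n : ℕ in atTop, (1 : ℝ) + 2 ^ ((1974 / 10000 : ℝ) * n) ≤
      2 ^ ((1975 / 10000 : ℝ) * n) := by
    filter_upwards [eventually_ge_atTop 10000] with n hn
    have hn' : (10000 : ℝ) ≤ n := by exact_mod_cast hn
    have h1 : (1 : ℝ) ≤ 2 ^ ((1974 / 10000 : ℝ) * n) :=
      Real.one_le_rpow (by norm_num) (by positivity)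
    have h2 : (2 : ℝ) ^ ((1975 / 10000 : ℝ) * n) =
        2 ^ ((1 / 10000 : ℝ) * n) * 2 ^ ((1974 / 10000 : ℝ) * n) := by
      rw [← Real.rpow_add (by norm_num)]
      congr 1
      ring
    have h3 : (2 : ℝ) ≤ 2 ^ ((1 / 10000 : ℝ) * n) := by
      have := Real.rpow_le_rpow_of_exponent_le (x := 2) (by norm_num)
        (show (1 : ℝ) ≤ (1 / 10000 : ℝ) * n by linarith)
      rwa [Real.rpow_one] at this
    rw [h2]
    nlinarith
  filter_upwards [A_third, hbig, eventually_gt_atTop 0] with n hA hb hn X hX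
  have hthird : (3 * (1 / 2 : ℝ) - 1) / (1 + 1 / 2) = 1 / 3 := by norm_num
  set α : ℝ := 2 ^ ((1974 / 10000 : ℝ) * n) with hα
  set β : ℝ := 2 ^ ((1975 / 10000 : ℝ) * n) with hβ
  have hα0 : 0 < α := by positivity
  have hβ0 : 0 < β := by positivity
  have ht : ∀ z, z ≠ 0 → ((X.filter fun x => x - z ∈ X).card : ℝ) ≤ α := by
    intro z hz
    have h1 := card_translate hn (by norm_num) (by norm_num) hX z hz
    rw [hthird] at h1
    exact (Nat.cast_le.2 h1).trans hA
  have hsum : ∀ Y : Finset (EuclideanSpace ℝ (Fin n)), (X.card : ℝ) ^ 2 * Y.card ≤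
      (X + Y).card * (X.card + α * Y.card) := by
    intro Y
    have h1 := sumset_ge hn (by norm_num) (by norm_num) hX Y
    rw [hthird] at h1
    have h2 : (X.card : ℝ) ^ 2 * Y.card ≤ (X + Y).card * (X.card + A n (1 / 3) * Y.card) := by
      exact_mod_cast h1
    refine h2.trans (mul_le_mul_of_nonneg_left ?_ (Nat.cast_nonneg _))
    have := mul_le_mul_of_nonneg_right hA (Nat.cast_nonneg (α := ℝ) Y.card)
    linarith
  have hen : (E[X, X] : ℝ) ≤ β * (X.card : ℝ) ^ 2 := by
    have h1 := energy_le hn (by norm_num) (by norm_num) hX X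
    rw [hthird] at h1
    have h2 : (E[X, X] : ℝ) ≤ X.card * X.card + A n (1 / 3) * (X.card : ℝ) ^ 2 := by
      exact_mod_cast h1
    have h3 : (A n (1 / 3) : ℝ) * (X.card : ℝ) ^ 2 ≤ α * (X.card : ℝ) ^ 2 :=
      mul_le_mul_of_nonneg_right hA (by positivity)
    have h4 : (1 + α) * (X.card : ℝ) ^ 2 ≤ β * (X.card : ℝ) ^ 2 :=
      mul_le_mul_of_nonneg_right hb (by positivity)
    nlinarith
  refine ⟨ht, hsum, hen, fun hXl => ?_⟩
  -- the size of `X`
  have hw := Pool.Agent.H161R2.KissSym.wyner' n hn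
  rw [← kissing_eq] at hw
  set η : ℝ := 2 ^ (-(n : ℝ) / 200) with hη
  have hη0 : 0 < η := by positivity
  have hη1 : η ≤ 1 := by
    apply Real.rpow_le_one_of_one_le_of_nonpos (by norm_num)
    have : (0 : ℝ) ≤ n := Nat.cast_nonneg n
    linarith
  set ζ : ℝ := 2 ^ ((n : ℝ) / 200) with hζ
  have hηζ : η * ζ = 1 := by
    rw [hη, hζ, ← Real.rpow_add (by norm_num)]
    rw [show -(n : ℝ) / 200 + (n : ℝ) / 200 = 0 by ring, Real.rpow_zero]
  have hζ1 : 1 ≤ ζ := Real.one_le_rpow (by norm_num) (by positivity)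
  have hβX : ζ * β ≤ X.card := by
    refine le_trans (le_trans (le_of_eq ?_) (mul_le_mul_of_nonneg_left hw hη0.le)) hXl
    rw [hζ, hβ, hη, ← Real.rpow_add (by norm_num), ← Real.rpow_add (by norm_num)]
    congr 1
    ring
  have hαβ : α ≤ β := by linarith
  have hX0 : (0 : ℝ) < X.card := lt_of_lt_of_le (by positivity) hβX
  have hβX' : β ≤ η * X.card := by
    have h1 := mul_le_mul_of_nonneg_left hβX hη0.le
    rw [← mul_assoc, hηζ, one_mul] at h1
    exact h1
  have hss : ∀ Y : Finset (EuclideanSpace ℝ (Fin n)), X.card ≤ Y.card →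
      ζ * X.card ≤ (X + Y).card := by
    intro Y hY
    have h1 := hsum Y
    have hY' : (X.card : ℝ) ≤ Y.card := by exact_mod_cast hY
    have hY0 : (0 : ℝ) < Y.card := lt_of_lt_of_le hX0 hY'
    have h2 : (X.card : ℝ) * X.card ≤ (X + Y).card * (1 + α) := by
      have h3 : (X.card : ℝ) * X.card * Y.card ≤ (X + Y).card * (1 + α) * Y.card := by
        calc (X.card : ℝ) * X.card * Y.card = (X.card : ℝ) ^ 2 * Y.card := by ring
          _ ≤ (X + Y).card * (X.card + α * Y.card) := h1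
          _ ≤ (X + Y).card * (Y.card + α * Y.card) :=
            mul_le_mul_of_nonneg_left (by linarith) (Nat.cast_nonneg _)
          _ = _ := by ring
      exact le_of_mul_le_mul_right h3 hY0
    have h4 : (X.card : ℝ) * X.card ≤ (X + Y).card * β :=
      h2.trans (mul_le_mul_of_nonneg_left hb (Nat.cast_nonneg _))
    have h5 : ζ * X.card * β ≤ (X + Y).card * β := by
      refine le_trans ?_ h4
      calc ζ * X.card * β = (ζ * β) * X.card := by ring
        _ ≤ X.card * X.card := mul_le_mul_of_nonneg_right hβX hX0.le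
    exact le_of_mul_le_mul_right h5 hβ0
  refine ⟨fun z hz => (ht z hz).trans (hαβ.trans hβX'), ?_, hss, ?_⟩
  · refine hen.trans ?_
    calc β * (X.card : ℝ) ^ 2 ≤ (η * X.card) * (X.card : ℝ) ^ 2 :=
          mul_le_mul_of_nonneg_right hβX' (by positivity)
      _ = _ := by ring
  · intro Y hY
    have h1 := hsum Y
    have h2 : α * Y.card ≤ X.card := by
      calc α * Y.card ≤ β * ζ := mul_le_mul hαβ hY (Nat.cast_nonneg _) hβ0.le
        _ = ζ * β := mul_comm _ _
        _ ≤ _ := hβX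
    have h3 : (X.card : ℝ) * Y.card * X.card ≤ 2 * (X + Y).card * X.card := by
      calc (X.card : ℝ) * Y.card * X.card = (X.card : ℝ) ^ 2 * Y.card := by ring
        _ ≤ (X + Y).card * (X.card + α * Y.card) := h1
        _ ≤ (X + Y).card * (X.card + X.card) :=
          mul_le_mul_of_nonneg_left (by linarith) (Nat.cast_nonneg _)
        _ = _ := by ring
    exact le_of_mul_le_mul_right h3 hX0

end Pool.Agent.E8helper37.KA
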