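import Pool.Agent.H818R2.Sph2

set_option autoImplicit false

/-!
# Additive structure of spherical codes
-/

open scoped InnerProductSpace Pointwise Combinatorics.Additive

namespace Pool.Agent.E8helper37.KA

open Pool.Agent.H818R2

/-- `X` is a spherical code: unit vectors, any two distinct ones with inner product at most `s`. -/
def IsCode {n : ℕ} (s : ℝ) (X : Finset (EuclideanSpace ℝ (Fin n))) : Prop :=
  (∀ x ∈ X, ‖x‖ = 1) ∧ ∀ x ∈ X, ∀ y ∈ X, x ≠ y → ⟪x, y⟫_ℝ ≤ s

/-- The largest number of points of a spherical code with inner products at most `s`. -/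
noncomputable def A (n : ℕ) (s : ℝ) : ℕ :=
  sSup {k | ∃ X : Finset (EuclideanSpace ℝ (Fin n)), IsCode s X ∧ X.card = k}

theorem A_eq {n : ℕ} {s : ℝ} (h1 : -1 ≤ s) (h2 : s ≤ 1) : A n s = sphMax n (Real.arccos s) := by
  unfold A sphMax IsSphCode IsCode
  rw [Real.cos_arccos h1 h2]

theorem sin_pos {s : ℝ} (h2 : s < 1) : 0 < Real.sin (Real.arccos s / 2) := by
  apply Real.sin_pos_of_pos_of_lt_pi
  · have := Real.arccos_pos.2 h2
    linarith
  · have := Real.arccos_le_pi s
    have := Real.pi_pos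
    linarith

theorem le_A {n : ℕ} (hn : 0 < n) {s : ℝ} (h1 : -1 ≤ s) (h2 : s < 1)
    {X : Finset (EuclideanSpace ℝ (Fin n))} (hX : IsCode s X) : X.card ≤ A n s := by
  have : NeZero n := ⟨by omega⟩
  rw [A_eq h1 h2.le]
  apply le_sphMax (sin_pos h2)
  refine ⟨hX.1, ?_⟩
  rw [Real.cos_arccos h1 h2.le]
  exact hX.2

theorem one_le_A {n : ℕ} (hn : 0 < n) {s : ℝ} (h1 : -1 ≤ s) (h2 : s < 1) : 1 ≤ A n s := by
  have h := le_A hn h1 h2 (X := {EuclideanSpace.single (⟨0, hn⟩ : Fin n) (1 : ℝ)}) (by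
    constructor
    · intro x hx
      rw [Finset.mem_singleton] at hx
      rw [hx, EuclideanSpace.norm_single, norm_one]
    · intro x hx y hy hxy
      rw [Finset.mem_singleton] at hx hy
      exact absurd (hx.trans hy.symm) hxy)
  rwa [Finset.card_singleton] at h

variable {n : ℕ} {s : ℝ} {X : Finset (EuclideanSpace ℝ (Fin n))}

open Classical in
/-- The number of the points of a code at distance one from a point. -/
theorem card_sphere (hn : 0 < n) (hs0 : 0 ≤ s) (hs1 : s < 1) (hX : IsCode s X)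
    (z : EuclideanSpace ℝ (Fin n)) (hz : 2 - 2 * s ≤ ‖z‖ ^ 2) :
    (X.filter fun x => ‖x - z‖ = 1).card ≤ A n ((3 * s - 1) / (1 + s)) := by
  have hs' : 0 < 1 + s := by linarith
  have hlow : -1 ≤ (3 * s - 1) / (1 + s) := by
    rw [le_div_iff₀ hs']
    linarith
  have hup : (3 * s - 1) / (1 + s) < 1 := by
    rw [div_lt_one hs']
    linarith
  set S := X.filter fun x => ‖x - z‖ = 1 with hS
  set t : ℝ := ‖z‖ ^ 2 / 4 with ht
  have hxz : ∀ x ∈ S, ⟪x, z⟫_ℝ = 2 * t := by
    intro x hx
    rw [hS, Finset.mem_filter] at hx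
    have h1 := norm_sub_sq_real x z
    rw [hx.2, hX.1 x hx.1] at h1
    rw [ht]
    linarith
  have hin : ∀ x ∈ S, ∀ y ∈ S, ⟪x - (1 / 2 : ℝ) • z, y - (1 / 2 : ℝ) • z⟫_ℝ = ⟪x, y⟫_ℝ - t := by
    intro x hx y hy
    rw [inner_sub_left, inner_sub_right, inner_sub_right, inner_smul_left, inner_smul_right,
      inner_smul_left, inner_smul_right, hxz x hx, real_inner_comm y z, hxz y hy,
      real_inner_self_eq_norm_sq]
    simp only [conj_trivial]
    rw [ht]
    ring
  have hnorm : ∀ x ∈ S, ‖x - (1 / 2 : ℝ) • z‖ ^ 2 = 1 - t := by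
    intro x hx
    rw [← real_inner_self_eq_norm_sq, hin x hx x hx, real_inner_self_eq_norm_sq]
    rw [hS, Finset.mem_filter] at hx
    rw [hX.1 x hx.1]
    ring
  rcases S.eq_empty_or_nonempty with hemp | ⟨x0, hx0⟩
  · rw [hemp, Finset.card_empty]
    exact Nat.zero_le _
  have hr0 : 0 ≤ 1 - t := by
    rw [← hnorm x0 hx0]
    positivity
  rcases hr0.eq_or_lt with hr | hr
  · have h1 : S ⊆ {(1 / 2 : ℝ) • z} := by
      intro x hx
      have h2 := hnorm x hx
      rw [← hr] at h2
      have h3 : ‖x - (1 / 2 : ℝ) • z‖ = 0 := by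
        exact pow_eq_zero_iff (two_ne_zero) |>.1 h2
      rw [Finset.mem_singleton]
      exact sub_eq_zero.1 (norm_eq_zero.1 h3)
    exact (Finset.card_le_card h1).trans (by
      rw [Finset.card_singleton]
      exact one_le_A hn hlow hup)
  · set c : ℝ := (√(1 - t))⁻¹ with hc
    have hsq : 0 < √(1 - t) := Real.sqrt_pos.2 hr
    have hc0 : 0 < c := inv_pos.2 hsq
    have hc2 : c ^ 2 = 1 / (1 - t) := by
      rw [hc, inv_pow, Real.sq_sqrt hr0, one_div]
    let f : EuclideanSpace ℝ (Fin n) → EuclideanSpace ℝ (Fin n) :=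
      fun x => c • (x - (1 / 2 : ℝ) • z)
    have hf : Function.Injective f := by
      intro x y hxy
      have h1 := smul_right_injective _ hc0.ne' hxy
      exact sub_left_injective h1
    have h1 := le_A hn hlow hup (X := S.image f) (by
      constructor
      · intro x hx
        rw [Finset.mem_image] at hx
        obtain ⟨y, hy, rfl⟩ := hx
        have h2 : ‖f y‖ ^ 2 = 1 := by
          change ‖c • (y - (1 / 2 : ℝ) • z)‖ ^ 2 = 1
          rw [norm_smul, mul_pow, hnorm y hy, Real.norm_eq_abs, sq_abs, hc2]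
          field_simp
        have h3 : 0 ≤ ‖f y‖ := norm_nonneg _
        nlinarith
      · intro x hx y hy hxy
        rw [Finset.mem_image] at hx hy
        obtain ⟨x', hx', rfl⟩ := hx
        obtain ⟨y', hy', rfl⟩ := hy
        have hne : x' ≠ y' := fun h => hxy (by rw [h])
        change ⟪c • (x' - (1 / 2 : ℝ) • z), c • (y' - (1 / 2 : ℝ) • z)⟫_ℝ ≤ _
        rw [inner_smul_left, inner_smul_right, hin x' hx' y' hy']
        simp only [conj_trivial]
        rw [← mul_assoc, ← pow_two, hc2, one_div, inv_mul_eq_div, div_le_div_iff₀ hr hs']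
        rw [hS, Finset.mem_filter] at hx' hy'
        have h2 := hX.2 x' hx'.1 y' hy'.1 hne
        have h3 : (⟪x', y'⟫_ℝ - t) * (1 + s) ≤ (s - t) * (1 + s) :=
          mul_le_mul_of_nonneg_right (by linarith) hs'.le
        refine h3.trans ?_
        have h4 : 0 ≤ (1 - s) * (2 * t - (1 - s)) :=
          mul_nonneg (by linarith) (by rw [ht]; linarith)
        nlinarith)
    rwa [Finset.card_image_of_injective _ hf] at h1

open Classical in
/-- Translates are almost disjoint. -/
theorem card_translate (hn : 0 < n) (hs0 : 0 ≤ s) (hs1 : s < 1) (hX : IsCode s X)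
    (z : EuclideanSpace ℝ (Fin n)) (hz : z ≠ 0) :
    (X.filter fun x => x - z ∈ X).card ≤ A n ((3 * s - 1) / (1 + s)) := by
  rcases (X.filter fun x => x - z ∈ X).eq_empty_or_nonempty with hemp | ⟨x0, hx0⟩
  · rw [hemp, Finset.card_empty]
    exact Nat.zero_le _
  · rw [Finset.mem_filter] at hx0
    have hne : x0 ≠ x0 - z := by
      intro h
      apply hz
      have := sub_eq_self.1 h.symm
      exact this
    have h1 := hX.2 x0 hx0.1 _ hx0.2 hne
    have h2 := norm_sub_sq_real x0 (x0 - z)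
    rw [hX.1 x0 hx0.1, hX.1 _ hx0.2, sub_sub_cancel] at h2
    refine le_trans (Finset.card_le_card ?_) (card_sphere hn hs0 hs1 hX z (by linarith))
    intro x hx
    rw [Finset.mem_filter] at hx ⊢
    exact ⟨hx.1, hX.1 _ hx.2⟩

open Classical in
/-- The additive energy. -/
theorem energy_le (hn : 0 < n) (hs0 : 0 ≤ s) (hs1 : s < 1) (hX : IsCode s X)
    (Y : Finset (EuclideanSpace ℝ (Fin n))) :
    E[X, Y] ≤ X.card * Y.card + A n ((3 * s - 1) / (1 + s)) * Y.card ^ 2 := by
  have h1 : ∀ q ∈ Y ×ˢ Y, ((X ×ˢ X).filter fun p => p.1 + q.1 = p.2 + q.2).card ≤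
      if q.1 = q.2 then X.card else A n ((3 * s - 1) / (1 + s)) := by
    rintro ⟨y, y'⟩ hq
    dsimp only
    have hle : ((X ×ˢ X).filter fun p => p.1 + y = p.2 + y').card ≤
        (X.filter fun x => x - (y' - y) ∈ X).card := by
      apply Finset.card_le_card_of_injOn (fun p => p.1)
      · rintro ⟨x, x'⟩ hp
        simp only [Finset.coe_filter, Set.mem_setOf_eq, Finset.mem_product] at hp
        simp only [Finset.coe_filter, Set.mem_setOf_eq]
        refine ⟨hp.1.1, ?_⟩
        have h2 : x - (y' - y) = x' := by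
          have := hp.2
          rw [sub_sub_eq_add_sub, this]
          abel
        rw [h2]
        exact hp.1.2
      · rintro ⟨x, x'⟩ hp ⟨w, w'⟩ hq hxw
        simp only [Finset.coe_filter, Set.mem_setOf_eq, Finset.mem_product] at hp hq
        simp only at hxw
        subst hxw
        have h3 := hp.2.symm.trans hq.2
        rw [add_left_inj] at h3
        rw [h3]
    split_ifs with h
    · refine hle.trans (Finset.card_filter_le _ _)
    · refine hle.trans (card_translate hn hs0 hs1 hX _ ?_)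
      exact sub_ne_zero.2 (Ne.symm h)
  have h2 : E[X, Y] = ∑ q ∈ Y ×ˢ Y, ((X ×ˢ X).filter fun p => p.1 + q.1 = p.2 + q.2).card := by
    unfold Finset.addEnergy
    rw [Finset.card_filter, Finset.sum_product_right]
    refine Finset.sum_congr rfl fun q _ => ?_
    rw [Finset.card_filter]
  rw [h2]
  refine (Finset.sum_le_sum h1).trans ?_
  rw [Finset.sum_ite, Finset.sum_const, Finset.sum_const, smul_eq_mul, smul_eq_mul]
  have h3 : ((Y ×ˢ Y).filter fun q => q.1 = q.2).card = Y.card := by
    have h4 : ((Y ×ˢ Y).filter fun q => q.1 = q.2) = Y.diag := by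
      ext q
      simp only [Finset.mem_filter, Finset.mem_product, Finset.mem_diag]
      constructor
      · rintro ⟨⟨a, b⟩, c⟩
        exact ⟨a, c⟩
      · rintro ⟨a, c⟩
        exact ⟨⟨a, c ▸ a⟩, c⟩
    rw [h4, Finset.diag_card]
  rw [h3, mul_comm Y.card]
  apply Nat.add_le_add_left
  rw [mul_comm]
  apply Nat.mul_le_mul_left
  refine (Finset.card_filter_le _ _).trans ?_
  rw [Finset.card_product, pow_two]

open Classical in
/-- Sumsets. -/
theorem sumset_ge (hn : 0 < n) (hs0 : 0 ≤ s) (hs1 : s < 1) (hX : IsCode s X)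
    (Y : Finset (EuclideanSpace ℝ (Fin n))) :
    X.card ^ 2 * Y.card ≤ (X + Y).card * (X.card + A n ((3 * s - 1) / (1 + s)) * Y.card) := by
  rcases Nat.eq_zero_or_pos Y.card with h0 | h0
  · rw [h0, mul_zero]
    exact Nat.zero_le _
  have h1 := Finset.le_card_add_mul_addEnergy X Y
  have h2 := Nat.mul_le_mul_left (X + Y).card (energy_le hn hs0 hs1 hX Y)
  refine Nat.le_of_mul_le_mul_right ((le_of_eq ?_).trans (h1.trans (h2.trans (le_of_eq ?_)))) h0
  · ring
  · ring

end Pool.Agent.E8helper37.KA
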